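import Pool.Agent.H37.CNS.Stmts

/-!
# Board `cns`, row QCG (helper62): the conductor of a quotient of a cover

After the file `Pool/Agent/H3/CNZ/QCC.lean` of helper3 (the case of a `p`-group).  `P₁` = the place below `P`,
`N = ker π ∩ ram 0`, `e = |N|`, `M = N ∩ ram 1`, `|N| = q |M|`.  Herbrand (`HER`) gives the sum of `P.b` on a coset of `N`, and
`P.b = 0` outside `ram 1`, so the mean of `P.b` on the coset `w M` is `q P₁.b (π w)`; then `UQM`, `UQT` on `ram 1`, `CON`, `CNV`.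
-/

set_option autoImplicit false

namespace Pool.CND

open Finset

/-- the place `z ↦ P.ord (σ z)` -/
private noncomputable def qcgPl {k L : Type} [Field k] [Field L] [Algebra k L] (P : Place k L)
    (σ : L ≃ₐ[k] L) : Place k L where
  ord z := P.ord (σ z)
  ord_mul x y hx hy := by
    rw [map_mul]
    exact P.ord_mul _ _ (by simpa using hx) (by simpa using hy)
  ord_add x y hx hy hxy := by
    rw [map_add]
    refine P.ord_add _ _ (by simpa using hx) (by simpa using hy) ?_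
    rw [← map_add]
    exact (map_ne_zero_iff _ σ.injective).2 hxy
  ord_surj := by
    obtain ⟨x, hx, h1⟩ := P.ord_surj
    exact ⟨σ.symm x, by simpa using hx, by rw [AlgEquiv.apply_symm_apply]; exact h1⟩
  ord_const c hc := by
    rw [AlgEquiv.commutes]
    exact P.ord_const c hc
  residue x hx h0 := by
    obtain ⟨c, hc⟩ := P.residue (σ x) (by simpa using hx) h0
    refine ⟨c, ?_⟩
    rcases hc with hc | hc
    · left
      apply σ.injective
      rw [hc, AlgEquiv.commutes]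
    · right
      rw [map_sub, AlgEquiv.commutes]
      exact hc

/-- the elements of `ram 0` are those which fix the place -/
private theorem qcg_ram0 {k L G : Type} [Field k] [Field L] [Algebra k L] [Group G] (P : Place k L)
    (ρ : G →* (L ≃ₐ[k] L)) (g : G) : g ∈ ram P ρ 0 ↔ Fixes P (ρ g) := by
  constructor
  · intro h
    exact h.1
  · intro h
    refine ⟨h, fun u hu0 hu1 => ?_⟩
    have h1 : P.Ge (ρ g u - u) 1 :=
      P.ge_sub (h.ge (Or.inr (by rw [hu1]))) (Or.inr (by rw [hu1]))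
    rcases h1 with h1 | h1
    · exact Or.inl (sub_eq_zero.1 h1)
    · exact Or.inr (by simpa using h1)

/-- the order of the image of a subgroup -/
private theorem qcg_card {G G₁ : Type} [Group G] [Group G₁] (π : G →* G₁) (I : Subgroup G) :
    Nat.card I = Nat.card (π.ker ⊓ I : Subgroup G) * Nat.card (I.map π) := by
  let f : I →* G₁ := π.comp I.subtype
  have h1 : f.range = I.map π := by
    rw [MonoidHom.range_comp, Subgroup.range_subtype]
  have h2 : f.ker = π.ker.subgroupOf I := by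
    ext x
    rw [MonoidHom.mem_ker, Subgroup.mem_subgroupOf, MonoidHom.mem_ker]
    rfl
  have h3 : Nat.card f.ker = Nat.card (π.ker ⊓ I : Subgroup G) := by
    rw [h2, ← Subgroup.inf_subgroupOf_right]
    exact Nat.card_congr (Subgroup.subgroupOfEquivOfLe (inf_le_right : π.ker ⊓ I ≤ I)).toEquiv
  rw [← f.ker.card_mul_index, h3, Subgroup.index_ker, h1]

private theorem qcg_sm_eq {G : Type} [Fintype G] (b : G → ℤ) (T : Set G) (s : Finset G)
    (hs : ∀ g, g ∈ s ↔ g ∈ T) : sm b T = ∑ g ∈ s, b g := by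
  classical
  unfold sm
  refine Finset.sum_congr ?_ (fun _ _ => rfl)
  ext g
  rw [Finset.mem_filter, hs]
  exact ⟨fun h => h.2, fun h => ⟨Finset.mem_univ _, h⟩⟩

/-- sums over the fibres of `π` -/
private theorem qcg_sm {G G₁ : Type} [Group G] [Group G₁] [Fintype G] [Fintype G₁] (π : G →* G₁)
    (I N : Subgroup G) (I₁ : Subgroup G₁) (B₁ : G₁ → ℤ) (hI : I₁ = I.map π)
    (hN : ∀ g, g ∈ N ↔ g ∈ I ∧ π g = 1) :
    sm (fun g => B₁ (π g)) {g | g ∈ I ∧ g ∉ N} =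
      Nat.card N * sm B₁ {γ | γ ∈ I₁ ∧ γ ≠ 1} := by
  classical
  set s : Finset G := univ.filter (fun g => g ∈ I ∧ g ∉ N) with hs
  set t : Finset G₁ := univ.filter (fun γ => γ ∈ I₁ ∧ γ ≠ 1) with ht
  have hs' : ∀ g, g ∈ s ↔ g ∈ I ∧ g ∉ N := fun g => by
    rw [hs, Finset.mem_filter]
    exact ⟨fun h => h.2, fun h => ⟨Finset.mem_univ _, h⟩⟩
  have ht' : ∀ γ, γ ∈ t ↔ γ ∈ I₁ ∧ γ ≠ 1 := fun γ => by
    rw [ht, Finset.mem_filter]
    exact ⟨fun h => h.2, fun h => ⟨Finset.mem_univ _, h⟩⟩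
  rw [qcg_sm_eq (fun g => B₁ (π g)) {g | g ∈ I ∧ g ∉ N} s (fun g => hs' g),
    qcg_sm_eq B₁ {γ | γ ∈ I₁ ∧ γ ≠ 1} t (fun γ => ht' γ), Finset.mul_sum]
  have hmaps : ∀ g ∈ s, π g ∈ t := by
    intro g hg
    obtain ⟨hg1, hg2⟩ := (hs' g).1 hg
    exact (ht' _).2 ⟨hI ▸ Subgroup.mem_map.2 ⟨g, hg1, rfl⟩, fun h => hg2 ((hN g).2 ⟨hg1, h⟩)⟩
  have hfw := Finset.sum_fiberwise_of_maps_to hmaps (fun g => B₁ (π g))
  rw [← hfw]
  refine Finset.sum_congr rfl fun γ hγ => ?_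
  obtain ⟨hγ1, hγ2⟩ := (ht' γ).1 hγ
  rw [hI] at hγ1
  obtain ⟨g₁, hg₁, rfl⟩ := Subgroup.mem_map.1 hγ1
  have h1 : ∑ x ∈ s.filter (fun g => π g = π g₁), B₁ (π x) =
      ∑ x ∈ s.filter (fun g => π g = π g₁), B₁ (π g₁) := by
    refine Finset.sum_congr rfl fun x hx => ?_
    rw [(Finset.mem_filter.1 hx).2]
  rw [h1, Finset.sum_const, nsmul_eq_mul]
  have h2 : (s.filter (fun g => π g = π g₁)).card = Nat.card N := by
    rw [Nat.card_eq_fintype_card, Fintype.card_subtype]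
    refine Finset.card_nbij' (fun g => g₁⁻¹ * g) (fun n => g₁ * n) ?_ ?_ ?_ ?_
    · intro g hg
      obtain ⟨hg0, hg2⟩ := Finset.mem_filter.1 (Finset.mem_coe.1 hg)
      obtain ⟨hg1, -⟩ := (hs' g).1 hg0
      refine Finset.mem_coe.2 (Finset.mem_filter.2 ⟨Finset.mem_univ _, (hN _).2
        ⟨I.mul_mem (I.inv_mem hg₁) hg1, ?_⟩⟩)
      rw [map_mul, map_inv, hg2, inv_mul_cancel]
    · intro n hn
      obtain ⟨hn1, hn2⟩ := (hN n).1 (Finset.mem_filter.1 (Finset.mem_coe.1 hn)).2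
      have h2 : π (g₁ * n) = π g₁ := by rw [map_mul, hn2, mul_one]
      refine Finset.mem_coe.2 (Finset.mem_filter.2 ⟨(hs' _).2
        ⟨I.mul_mem hg₁ hn1, fun h => hγ2 ?_⟩, h2⟩)
      rw [← h2]
      exact ((hN _).1 h).2
    · intro g _
      exact mul_inv_cancel_left g₁ g
    · intro n _
      exact inv_mul_cancel_left g₁ n
  rw [h2]

/-- `b` does not depend on the uniformiser -/
private theorem qcg_unif (hLON : S_LON) (hINJ : S_INJ) {k L : Type} [Field k] [Field L]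
    [Algebra k L] (P : Place k L) (g : L ≃ₐ[k] L) (u : L) (hg : Fixes P g) (hg1 : g ≠ 1)
    (hu : u ≠ 0) (hu1 : P.ord u = 1) : P.b g = P.ord (g u - u) - 1 := by
  have key : ∀ v w : L, v ≠ 0 → w ≠ 0 → P.ord v = 1 → P.ord w = 1 →
      P.ord (g v - v) ≤ P.ord (g w - w) := by
    intro v w hv hw hv1 hw1
    have h0 : ∀ z : L, z ≠ 0 → P.ord z = 1 → g z - z ≠ 0 := fun z hz hz1 h =>
      hg1 (hINJ k L P g z hg hz hz1 (sub_eq_zero.1 h))
    have h1 : P.Ge (g v - v) 1 :=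
      P.ge_sub (hg.ge (Or.inr (by rw [hv1]))) (Or.inr (by rw [hv1]))
    have h2 : 1 ≤ P.ord (g v - v) := h1.resolve_left (h0 v hv hv1)
    have h3 := hLON k L P g v (P.ord (g v - v) - 1) hg hv hv1 (by linarith)
      (Or.inr (by linarith)) w
    have h4 := (h3.resolve_right hw).resolve_left (h0 w hw hw1)
    rw [hw1] at h4
    linarith
  have h1 := key u P.pi hu P.pi_ne hu1 P.ord_pi
  have h2 := key P.pi u P.pi_ne hu P.ord_pi hu1
  unfold Place.b
  rw [le_antisymm h2 h1]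

/-- elements of `p`-power order of the inertia group are wild -/
private theorem qcg_wild (hTMO : S_TMO) {p : ℕ} {k L G : Type} [Field k] [Field L] [Algebra k L]
    [Group G] (P : Place k L) (ρ : G →* (L ≃ₐ[k] L)) (hp : p.Prime) (hck : CharP k p)
    (I W : Subgroup G) (hW : (W : Set G) = ram P ρ 1) (hI : (I : Set G) = ram P ρ 0) :
    ∀ (n : ℕ) (g : G), g ∈ I → g ^ (p ^ n) = 1 → g ∈ W := by
  intro n
  induction n with
  | zero =>
    intro g _ h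
    rw [pow_zero, pow_one] at h
    rw [h]
    exact W.one_mem
  | succ n ih =>
    intro g hg h
    have h1 : g ^ p ∈ W := by
      refine ih (g ^ p) (I.pow_mem hg p) ?_
      rw [← pow_mul, ← pow_succ']
      exact h
    have h2 : g ∈ ram P ρ 1 := by
      refine hTMO p k L G P ρ hp hck g ?_ ?_
      · rw [← hI]
        exact hg
      · rw [← hW]
        exact h1
    rw [← hW] at h2
    exact h2

/-- the image of the wild inertia group -/
private theorem qcg_img (hTMO : S_TMO) {p : ℕ} {k L L₁ G G₁ : Type} [Field k] [Field L]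
    [Field L₁] [Algebra k L] [Algebra k L₁] [Group G] [Group G₁] [Finite G] [Finite G₁]
    (P₁ : Place k L₁) (ρ₁ : G₁ →* (L₁ ≃ₐ[k] L₁)) (π : G →* G₁) (hp : p.Prime) (hck : CharP k p)
    (I W N M : Subgroup G) (I₁ W₁ : Subgroup G₁) (hW₁ : (W₁ : Set G₁) = ram P₁ ρ₁ 1)
    (hI₁ : (I₁ : Set G₁) = ram P₁ ρ₁ 0) (hmap : I₁ = I.map π) (hWI : W ≤ I)
    (hN : N = π.ker ⊓ I) (hM : M = π.ker ⊓ W) (m : ℕ) (hm : ¬ p ∣ m)
    (hIm : Nat.card I = m * Nat.card W) (hWn : ∃ n : ℕ, Nat.card W = p ^ n)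
    (hW₁n : ∃ n : ℕ, Nat.card W₁ = p ^ n) (hWI₁ : W₁ ≤ I₁) : W₁ = W.map π := by
  have hle : W.map π ≤ W₁ := by
    intro γ hγ
    obtain ⟨w, hw, rfl⟩ := Subgroup.mem_map.1 hγ
    obtain ⟨n, hn⟩ := hWn
    refine qcg_wild hTMO P₁ ρ₁ hp hck I₁ W₁ hW₁ hI₁ n (π w) ?_ ?_
    · rw [hmap]
      exact Subgroup.mem_map.2 ⟨w, hWI hw, rfl⟩
    · rw [← map_pow]
      have h1 : w ^ (p ^ n) = 1 := by
        have h2 := pow_card_eq_one' (x := (⟨w, hw⟩ : W))
        rw [hn] at h2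
        have h3 := congrArg Subtype.val h2
        simpa using h3
      rw [h1, map_one]
  refine (Subgroup.eq_of_le_of_card_ge hle ?_).symm
  have hc1 : Nat.card I = Nat.card N * Nat.card I₁ := by
    rw [hN, hmap]
    exact qcg_card π I
  have hc2 : Nat.card W = Nat.card M * Nat.card (W.map π) := by
    rw [hM]
    exact qcg_card π W
  have hMN : M ≤ N := by
    rw [hM, hN]
    exact inf_le_inf_left _ hWI
  obtain ⟨q, hq⟩ := Subgroup.card_dvd_of_le hMN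
  have hMpos : 0 < Nat.card M := Nat.card_pos
  have h1 : q * Nat.card I₁ = m * Nat.card (W.map π) := by
    have h2 : Nat.card M * (q * Nat.card I₁) = Nat.card M * (m * Nat.card (W.map π)) := by
      calc Nat.card M * (q * Nat.card I₁) = Nat.card N * Nat.card I₁ := by rw [hq]; ring
        _ = m * Nat.card W := by rw [← hc1, hIm]
        _ = Nat.card M * (m * Nat.card (W.map π)) := by rw [hc2]; ring
    exact Nat.eq_of_mul_eq_mul_left hMpos h2
  have h2 : Nat.card W₁ ∣ m * Nat.card (W.map π) := by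
    rw [← h1]
    exact (Subgroup.card_dvd_of_le hWI₁).trans (Dvd.intro_left _ rfl)
  have h3 : Nat.card W₁ ∣ Nat.card (W.map π) := by
    obtain ⟨n, hn⟩ := hW₁n
    rw [hn] at h2 ⊢
    refine Nat.Coprime.dvd_of_dvd_mul_left ?_ h2
    exact Nat.Coprime.pow_left _ ((Nat.Prime.coprime_iff_not_dvd hp).2 hm)
  exact Nat.le_of_dvd Nat.card_pos h3

/-- the sum of a function which vanishes outside a subset -/
private theorem qcg_sub {G : Type} [Fintype G] (b : G → ℤ) (S T : Set G) (hST : S ⊆ T)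
    (h0 : ∀ x ∈ T, x ∉ S → b x = 0) : sm b T = sm b S := by
  classical
  rw [qcg_sm_eq b T (univ.filter (fun g => g ∈ T)) (fun g => by simp),
    qcg_sm_eq b S (univ.filter (fun g => g ∈ S)) (fun g => by simp)]
  symm
  refine Finset.sum_subset ?_ ?_
  · intro x hx
    rw [Finset.mem_filter] at hx ⊢
    exact ⟨hx.1, hST hx.2⟩
  · intro x hx hx'
    rw [Finset.mem_filter] at hx hx'
    exact h0 x hx.2 (fun h => hx' ⟨Finset.mem_univ _, h⟩)

/-- constants -/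
private theorem qcg_const {G : Type} [Fintype G] (q : ℤ) (b : G → ℤ) (T : Set G) :
    sm (fun g => q * b g) T = q * sm b T := by
  unfold sm
  rw [Finset.mul_sum]

theorem qcg_thm (hRSP : S_RSP) (hTOT : S_TOT) (hRMX : S_RMX) (hFXP : S_FXP) (hRST : S_RST)
    (hART : S_ART) (hHER : S_HER) (hTRV : S_TRV) (hWLD : S_WLD) (hTMO : S_TMO) (hRAM : S_RAM)
    (hUMW : S_UMW) (hINJ : S_INJ) (hLON : S_LON) (hUQM : S_UQM) (hUQT : S_UQT) (hCON : S_CON)
    (hCNV : S_CNV) (hSUB : S_SUB) : S_QCG := by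
  classical
  intro p k L L₁ G G₁ _ _ _ _ _ _ _ _ _ ρ ρ₁ π j t₁ P c hp hck hcov hcov₁ hq hcon hc0
  have : Fintype G := Fintype.ofFinite G
  have : Fintype G₁ := Fintype.ofFinite G₁
  have hρ := hcov.inj
  have hρ₁ := hcov₁.inj
  obtain ⟨e, P₁, he1, hP₁⟩ := hRSP k L₁ L j P t₁ hcov₁.trans
  have he0 : (0 : ℤ) < e := by exact_mod_cast he1
  have hj0 : ∀ z : L₁, z ≠ 0 → j z ≠ 0 := fun z hz => (map_ne_zero_iff _ j.injective).2 hz
  have hρ₁0 : ∀ (γ : G₁) (z : L₁), z ≠ 0 → ρ₁ γ z ≠ 0 := fun γ z hz =>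
    (map_ne_zero_iff _ (ρ₁ γ).injective).2 hz
  -- the groups at `P`
  obtain ⟨W, I, hI1, hI0, hWI, hWn, m, hm, hIm⟩ := hWLD p k L G P ρ hp hck hρ
  obtain ⟨W₁, I₁, hI₁1, hI₁0, hWI₁, hW₁n, -⟩ := hWLD p k L₁ G₁ P₁ ρ₁ hp hck hρ₁
  have hfixI : ∀ g : G, g ∈ I ↔ Fixes P (ρ g) := by
    intro g
    rw [← SetLike.mem_coe, hI0]
    exact qcg_ram0 P ρ g
  have hfixI₁ : ∀ g : G₁, g ∈ I₁ ↔ Fixes P₁ (ρ₁ g) := by
    intro g
    rw [← SetLike.mem_coe, hI₁0]
    exact qcg_ram0 P₁ ρ₁ g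
  have hnormW : ∀ g ∈ I, ∀ n ∈ W, g * n * g⁻¹ ∈ W := by
    obtain ⟨W', I', hW', hI', -, hn'⟩ := hSUB k L G P ρ
    have hWW : W' = W := SetLike.coe_injective (hW'.trans hI1.symm)
    have hII : I' = I := SetLike.coe_injective (hI'.trans hI0.symm)
    rw [← hWW, ← hII]
    exact hn'
  set N : Subgroup G := π.ker ⊓ I with hNdef
  set M : Subgroup G := π.ker ⊓ W with hMdef
  have hN : ∀ g, g ∈ N ↔ g ∈ I ∧ π g = 1 := by
    intro g
    rw [hNdef, Subgroup.mem_inf, MonoidHom.mem_ker]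
    exact and_comm
  have hM : ∀ g, g ∈ M ↔ g ∈ W ∧ π g = 1 := by
    intro g
    rw [hMdef, Subgroup.mem_inf, MonoidHom.mem_ker]
    exact and_comm
  have hNI : N ≤ I := inf_le_right
  have hMW : M ≤ W := inf_le_right
  have hMN : M ≤ N := inf_le_inf_left _ hWI
  have hfixN : ∀ n ∈ N, Fixes P (ρ n) := fun n hn => (hfixI n).1 (hNI hn)
  have hJ : ∀ g, g ∈ N ↔ g ∈ π.ker ∧ Fixes P (ρ g) := by
    intro g
    rw [hNdef, Subgroup.mem_inf, hfixI]
  have hnormN : ∀ g ∈ I, ∀ n ∈ N, g * n * g⁻¹ ∈ N := by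
    intro g hg n hn
    obtain ⟨hn1, hn2⟩ := (hN n).1 hn
    refine (hN _).2 ⟨I.mul_mem (I.mul_mem hg hn1) (I.inv_mem hg), ?_⟩
    rw [map_mul, map_mul, hn2, mul_one, map_inv, mul_inv_cancel]
  have hnormM : ∀ g ∈ W, ∀ n ∈ M, g * n * g⁻¹ ∈ M := by
    intro g hg n hn
    obtain ⟨hn1, hn2⟩ := (hM n).1 hn
    refine (hM _).2 ⟨hnormW g (hWI hg) n hn1, ?_⟩
    rw [map_mul, map_mul, hn2, mul_one, map_inv, mul_inv_cancel]
  have hfixj : ∀ n ∈ N, ∀ y : L₁, ρ n (j y) = j y := by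
    intro n hn y
    rw [hq.eqv, ((hN n).1 hn).2, map_one, AlgEquiv.one_apply]
  -- `e = |N|`
  have heN : e = Nat.card N := by
    obtain ⟨w, hw0, hwC, hword⟩ := hRMX k L G P ρ π.ker N hJ
    obtain ⟨y, rfl⟩ := hq.fix w (fun g hg => hwC g (MonoidHom.mem_ker.2 hg))
    have hy0 : y ≠ 0 := by
      rintro rfl
      exact hw0 (map_zero j)
    have h1 : (e : ℤ) ∣ Nat.card N := by
      have h := hP₁ y hy0
      rw [hword] at h
      exact ⟨_, h.symm⟩
    have h2 : (Nat.card N : ℤ) ∣ e := by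
      obtain ⟨z, hz0, hz1⟩ := P₁.ord_surj
      have h3 := hTOT k L G P ρ N hρ hfixN (j z) (hj0 z hz0) (fun n hn => hfixj n hn z)
      rw [← hP₁ z hz0, hz1, mul_one] at h3
      exact h3
    exact Nat.dvd_antisymm (by exact_mod_cast h1) (by exact_mod_cast h2)
  -- the inertia group of `P₁`
  have hmap : I₁ = I.map π := by
    ext γ
    rw [hfixI₁, Subgroup.mem_map]
    constructor
    · obtain ⟨g, rfl⟩ := hq.surj γ
      intro hg
      obtain ⟨a, haC, ha⟩ := hTRV k L G ρ π.ker P (qcgPl P (ρ g)) (by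
        intro z hz hzC hPz
        obtain ⟨y, rfl⟩ := hq.fix z (fun g hg => hzC g (MonoidHom.mem_ker.2 hg))
        have hy0 : y ≠ 0 := by
          rintro rfl
          exact hz (map_zero j)
        show P.ord (ρ g (j y)) = 0
        rw [hq.eqv, ← hP₁ _ (hρ₁0 _ y hy0), hg y hy0, hP₁ y hy0]
        exact hPz)
      refine ⟨g * a⁻¹, ?_, ?_⟩
      · rw [hfixI]
        intro z hz
        have h3 : P.ord (ρ g (ρ a⁻¹ z)) = P.ord (ρ a (ρ a⁻¹ z)) :=
          ha (ρ a⁻¹ z) (by simpa using hz)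
        rw [← AlgEquiv.mul_apply, ← AlgEquiv.mul_apply, ← map_mul, ← map_mul, mul_inv_cancel,
          map_one, AlgEquiv.one_apply] at h3
        exact h3
      · rw [map_mul, map_inv, MonoidHom.mem_ker.1 haC, inv_one, mul_one]
    · rintro ⟨g, hg, rfl⟩ z hz
      have h1 := hP₁ _ (hρ₁0 (π g) z hz)
      rw [← hq.eqv, (hfixI g).1 hg _ (hj0 z hz), ← hP₁ z hz] at h1
      exact mul_left_cancel₀ he0.ne' h1
  -- the means
  have hNpos : (0 : ℤ) < Nat.card N := by rw [← heN]; exact he0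
  obtain ⟨F, hF, Q, hQ⟩ := hFXP k L G P ρ N hρ hfixN
  have hmean : ∀ g ∈ I, g ∉ N → sm (fun x => P.b (ρ x)) {x | g⁻¹ * x ∈ N} =
      Nat.card N * P₁.b (ρ₁ (π g)) := by
    intro g hg hgN
    have hfix := (hfixI g).1 hg
    have hπ : π g ≠ 1 := fun h => hgN ((hN g).2 ⟨hg, h⟩)
    have hfix₁ : Fixes P₁ (ρ₁ (π g)) := (hfixI₁ _).1 (hmap ▸ Subgroup.mem_map.2 ⟨g, hg, rfl⟩)
    obtain ⟨γ, hγ, hγQ⟩ := hRST k L G P ρ N F Q g hF hQ (hnormN g hg) (fun n hn => by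
      have h := hnormN g⁻¹ (I.inv_mem hg) n hn
      rwa [inv_inv] at h) hfix
    have hγ1 : γ ≠ 1 := by
      intro h
      apply hgN
      refine hART k L G ρ N g hρ fun x hx => ?_
      have h3 := hγ ⟨x, (hF x).2 hx⟩
      rw [h, AlgEquiv.one_apply] at h3
      exact h3.symm
    rw [hHER k L G P ρ N F Q g γ hρ hfixN hF hQ hgN hfix hγ hγQ hγ1]
    congr 1
    have hyF : j P₁.pi ∈ F := (hF _).2 fun n hn => hfixj n hn _
    have hy0 : (⟨j P₁.pi, hyF⟩ : F) ≠ 0 := fun h => hj0 _ P₁.pi_ne (congrArg Subtype.val h)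
    have hy1 : Q.ord (⟨j P₁.pi, hyF⟩ : F) = 1 := by
      have h3 := hQ _ hy0
      rw [show (((⟨j P₁.pi, hyF⟩ : F)) : L) = j P₁.pi from rfl, ← hP₁ _ P₁.pi_ne, P₁.ord_pi,
        heN] at h3
      exact mul_left_cancel₀ hNpos.ne' h3
    rw [qcg_unif hLON hINJ Q γ _ hγQ hγ1 hy0 hy1]
    unfold Place.b
    congr 1
    have h5 : ((γ (⟨j P₁.pi, hyF⟩ : F) - (⟨j P₁.pi, hyF⟩ : F) : F) : L) =
        j (ρ₁ (π g) P₁.pi - P₁.pi) := by
      have h9 : ((γ (⟨j P₁.pi, hyF⟩ : F) : F) : L) = ρ g (j P₁.pi) := hγ _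
      rw [map_sub, ← hq.eqv, ← h9]
      rfl
    have h6 : ρ₁ (π g) P₁.pi - P₁.pi ≠ 0 := by
      intro h
      have h7 := hINJ k L₁ P₁ (ρ₁ (π g)) P₁.pi hfix₁ P₁.pi_ne P₁.ord_pi (sub_eq_zero.1 h)
      exact hπ (hρ₁ (by rw [h7, map_one]))
    have h7 : (γ (⟨j P₁.pi, hyF⟩ : F) - (⟨j P₁.pi, hyF⟩ : F) : F) ≠ 0 := by
      intro h
      rw [h] at h5
      exact hj0 _ h6 h5.symm
    have h8 := hQ _ h7
    rw [h5, ← hP₁ _ h6, heN] at h8
    exact mul_left_cancel₀ hNpos.ne' h8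
  -- the wild groups
  have hmapW : W₁ = W.map π := qcg_img hTMO (L := L) P₁ ρ₁ π hp hck I W N M I₁ W₁ hI₁1 hI₁0 hmap
    hWI hNdef hMdef m hm hIm hWn hW₁n hWI₁
  obtain ⟨q, hqN⟩ := Subgroup.card_dvd_of_le hMN
  have hMposN : 0 < Nat.card M := Nat.card_pos
  have hNposN : 0 < Nat.card N := Nat.card_pos
  have hqpos : 0 < q := by
    rcases Nat.eq_zero_or_pos q with h | h
    · exfalso
      rw [h, mul_zero] at hqN
      omega
    · exact h
  have hqposZ : (0 : ℤ) < q := by exact_mod_cast hqpos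
  -- tame elements
  have htame : ∀ g ∈ I, g ∉ W → P.b (ρ g) = 0 := by
    intro g hg hgW
    have hfix := (hfixI g).1 hg
    have hg1 : ρ g ≠ 1 := by
      intro h
      have h2 : g = 1 := hρ (by rw [h, map_one])
      exact hgW (h2 ▸ W.one_mem)
    have h1 : ¬ (1 : ℤ) ≤ P.b (ρ g) := by
      intro h
      have h2 : g ∈ ram P ρ 1 := (hRAM k L G P ρ g 1 le_rfl).2 ⟨hfix, Or.inr (by exact_mod_cast h)⟩
      rw [← hI1] at h2
      exact hgW h2
    have h2 : P.Ge (ρ g P.pi - P.pi) 1 :=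
      P.ge_sub (hfix.ge (Or.inr (by rw [P.ord_pi]))) (Or.inr (by rw [P.ord_pi]))
    have h3 : ρ g P.pi - P.pi ≠ 0 := fun h =>
      hg1 (hINJ k L P (ρ g) P.pi hfix P.pi_ne P.ord_pi (sub_eq_zero.1 h))
    have h4 := h2.resolve_left h3
    unfold Place.b at h1 ⊢
    omega
  have hmeanW : ∀ g ∈ W, g ∉ M → sm (fun x => P.b (ρ x)) {x | g⁻¹ * x ∈ M} =
      Nat.card M * ((q : ℤ) * P₁.b (ρ₁ (π g))) := by
    intro g hg hgM
    have hgN : g ∉ N := fun h => hgM ((hM g).2 ⟨hg, ((hN g).1 h).2⟩)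
    have h1 := hmean g (hWI hg) hgN
    have h2 : sm (fun x => P.b (ρ x)) {x | g⁻¹ * x ∈ N} =
        sm (fun x => P.b (ρ x)) {x | g⁻¹ * x ∈ M} := by
      refine qcg_sub _ _ _ (fun x hx => hMN hx) ?_
      intro x hx hx'
      have hxI : x ∈ I := by
        have h := I.mul_mem (hWI hg) (hNI hx)
        rwa [mul_inv_cancel_left] at h
      refine htame x hxI fun hxW => hx' ?_
      exact (hM _).2 ⟨W.mul_mem (W.inv_mem hg) hxW, ((hN _).1 hx).2⟩
    rw [← h2, h1, hqN]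
    push_cast
    ring
  -- sums
  have hfib : sm (fun g => (q : ℤ) * P₁.b (ρ₁ (π g))) {g | g ∈ W ∧ g ∉ M} =
      Nat.card N * sm (fun γ => P₁.b (ρ₁ γ)) {γ | γ ∈ W₁ ∧ γ ≠ 1} := by
    rw [qcg_sm π W M W₁ (fun γ => (q : ℤ) * P₁.b (ρ₁ γ)) hmapW hM, qcg_const, hqN]
    push_cast
    ring
  have hcard : (Nat.card I : ℚ) = Nat.card N * Nat.card I₁ := by
    rw [hmap]
    exact_mod_cast qcg_card π I
  have hNq : (0 : ℚ) < Nat.card N := by exact_mod_cast hNpos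
  have hIq : (0 : ℚ) < Nat.card I := by
    have : 0 < Nat.card I := Nat.card_pos
    exact_mod_cast this
  have hI₁q : (0 : ℚ) < Nat.card I₁ := by
    have : 0 < Nat.card I₁ := Nat.card_pos
    exact_mod_cast this
  have hW₁q : (0 : ℚ) < Nat.card W₁ := by
    have : 0 < Nat.card W₁ := Nat.card_pos
    exact_mod_cast this
  have hNMq : (Nat.card M : ℚ) * q = Nat.card N := by exact_mod_cast hqN.symm
  have hUM : UM (fun g => P.b (ρ g)) W := hUMW k L G P ρ W hρ hI1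
  -- the conductor is not negative
  have hcpos : 0 ≤ c := by
    obtain ⟨l1, -, -, h3⟩ := hcon
    rw [h3]
    exact div_nonneg (Finset.sum_nonneg fun _ _ => Nat.cast_nonneg _) (Nat.cast_nonneg _)
  obtain ⟨l₀, hl₀, hcl₀⟩ : ∃ l : ℤ, IsLst (fun g => P.b (ρ g)) W l ∧
      (Nat.card I : ℚ) * c = Nat.card W * U (fun g => P.b (ρ g)) W l := by
    rcases hCON k L G P ρ W I c hρ hI1 hI0 hcon with h0 | h0
    · exact absurd h0 hc0
    · exact h0
  have hWU : ∀ l₁ : ℤ, (Nat.card W₁ : ℚ) * U (fun γ => P₁.b (ρ₁ γ)) W₁ l₁ =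
      (l₁ : ℚ) + (sm (fun γ => P₁.b (ρ₁ γ)) {γ | γ ∈ W₁ ∧ γ ≠ 1} : ℤ) := by
    intro l₁
    unfold U
    rw [mul_div_cancel₀ _ hW₁q.ne']
  refine ⟨P₁, e, he1, hP₁, ?_, ?_⟩
  · intro c₁ hc₁
    rcases hCON k L₁ G₁ P₁ ρ₁ W₁ I₁ c₁ hρ₁ hI₁1 hI₁0 hc₁ with h0 | ⟨l₁, hl₁, hcl₁⟩
    · rw [h0]
      exact hcpos
    · obtain ⟨γ₀, hγ₀, hγ₀1, hγ₀l⟩ := hl₁.mem
      rw [hmapW] at hγ₀
      obtain ⟨g₀, hg₀, rfl⟩ := Subgroup.mem_map.1 hγ₀
      have hg₀M : g₀ ∉ M := fun h => hγ₀1 ((hM g₀).1 h).2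
      have h1 := hUQM G (fun g => P.b (ρ g)) (fun g => (q : ℤ) * P₁.b (ρ₁ (π g))) M W l₀ g₀ hUM
        hMW hnormM hmeanW hl₀ hg₀ hg₀M
      rw [← hcl₀, hfib, hcard] at h1
      have hγ₀l' : P₁.b (ρ₁ (π g₀)) = l₁ := hγ₀l
      simp only [hγ₀l'] at h1
      push_cast at h1
      rw [← mul_assoc, hNMq] at h1
      rw [hWU] at hcl₁
      have h2 : (Nat.card N : ℚ) * (Nat.card I₁ * c₁) ≤ Nat.card N * (Nat.card I₁ * c) := by
        rw [hcl₁]
        linarith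
      exact le_of_mul_le_mul_left (le_of_mul_le_mul_left h2 hNq) hI₁q
  · intro l hl1 ⟨g₀, hg₀l, hg₀π⟩
    have hg₀1 : g₀ ≠ 1 := by
      rintro rfl
      exact hg₀π (map_one π)
    obtain ⟨g1, hg1, hg11, hg1l⟩ := hl₀.mem
    have hlpos : 1 ≤ l := by
      rcases Nat.eq_zero_or_pos l with h | h
      · exfalso
        rw [h, zero_add, ← hI1] at hl1
        have h2 : g1 ∈ (W : Set G) := hg1
        rw [hl1] at h2
        exact hg11 h2
      · exact h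
    have hg₀W : g₀ ∈ W := by
      have h := (hRAM k L G P ρ g₀ l hlpos).1 hg₀l
      have h2 : g₀ ∈ ram P ρ 1 := by
        refine (hRAM k L G P ρ g₀ 1 le_rfl).2 ⟨h.1, ?_⟩
        rcases h.2 with h3 | h3
        · exact Or.inl h3
        · right
          push_cast
          have h4 : (1 : ℤ) ≤ l := by exact_mod_cast hlpos
          linarith
      rw [← hI1] at h2
      exact h2
    have hle : ∀ g ∈ W, g ≠ 1 → P.b (ρ g) ≤ l := by
      intro g hg hg1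
      by_contra hcon'
      have h2 : g ∈ ram P ρ (l + 1) := by
        refine (hRAM k L G P ρ g (l + 1) (by omega)).2 ⟨(hfixI g).1 (hWI hg), Or.inr ?_⟩
        push_cast
        linarith
      rw [hl1] at h2
      exact hg1 h2
    have hg₀b : P.b (ρ g₀) = l := by
      refine le_antisymm (hle g₀ hg₀W hg₀1) ?_
      rcases ((hRAM k L G P ρ g₀ l hlpos).1 hg₀l).2 with h | h
      · exact absurd (hρ (by rw [h, map_one])) hg₀1
      · exact h
    have hlst : IsLst (fun g => P.b (ρ g)) W (l : ℤ) := ⟨⟨g₀, hg₀W, hg₀1, hg₀b⟩, hle⟩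
    have hll : l₀ = (l : ℤ) := by
      refine le_antisymm ?_ ?_
      · rw [← hg1l]
        exact hlst.le g1 hg1 hg11
      · rw [← hg₀b]
        exact hl₀.le g₀ hg₀W hg₀1
    have hg₀M : g₀ ∉ M := fun h => hg₀π ((hM g₀).1 h).2
    obtain ⟨h1, h2⟩ := hUQT G (fun g => P.b (ρ g)) (fun g => (q : ℤ) * P₁.b (ρ₁ (π g))) M W
      (l : ℤ) g₀ hUM hMW hnormM hmeanW hlst hg₀W hg₀M hg₀b
    have hlst₁ : IsLst (fun γ => P₁.b (ρ₁ γ)) W₁ (P₁.b (ρ₁ (π g₀))) := by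
      constructor
      · exact ⟨π g₀, hmapW ▸ Subgroup.mem_map.2 ⟨g₀, hg₀W, rfl⟩, hg₀π, rfl⟩
      · intro γ hγ hγ1
        rw [hmapW] at hγ
        obtain ⟨g, hg, rfl⟩ := Subgroup.mem_map.1 hγ
        exact le_of_mul_le_mul_left (h1 g hg (fun h => hγ1 ((hM g).1 h).2)) hqposZ
    have hfin := hCNV k L₁ G₁ P₁ ρ₁ W₁ I₁ (P₁.b (ρ₁ (π g₀))) hρ₁ hI₁1 hI₁0 hlst₁
    have heq : c = (Nat.card W₁ : ℚ) * U (fun γ => P₁.b (ρ₁ γ)) W₁ (P₁.b (ρ₁ (π g₀))) /
        Nat.card I₁ := by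
      rw [eq_div_iff hI₁q.ne', hWU]
      rw [hll] at hcl₀
      rw [← hcl₀, hfib, hcard] at h2
      push_cast at h2
      rw [← mul_assoc (Nat.card M : ℚ), hNMq] at h2
      have h3 : (Nat.card N : ℚ) * (c * Nat.card I₁) = Nat.card N * ((P₁.b (ρ₁ (π g₀)) : ℚ) +
          (sm (fun γ => P₁.b (ρ₁ γ)) {γ | γ ∈ W₁ ∧ γ ≠ 1} : ℤ)) := by linarith
      exact mul_left_cancel₀ hNq.ne' h3
    rw [heq]
    exact hfin

end Pool.CND
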